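import Pool.Agent.R951.SH.Asym

/-!
# MP_5c4cbf_co: `⌊n/3⌋ ≤ k*(n)` for all `n`, and `k*(n) < 6n/13` for all large `n`
-/

set_option autoImplicit false

namespace Pool.Agent.Results.MP_5c4cbf_co.LinearGrowth

open Pool.Agent.R951.SH

/-- (1) For all large `n`, `13 k*(n) < 6 n`. (2) For every `n ≥ 1`: the maximum `k*(n)` is attained
(`Good n (kstar n)`) and no larger `k` is good, `⌊n/3⌋ ≤ k*(n)`, `⌊√n⌋ < 6 (n - 2 k*(n))`, and
`q² + q + 1 ≤ (2q + 1)(n - 2 k*(n))` for every prime power `q` with `q² + q + 1 ≤ n`. -/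
theorem result :
    (∀ᶠ n : ℕ in Filter.atTop, 13 * kstar n < 6 * n) ∧
    ∀ n : ℕ, 1 ≤ n →
      Good n (kstar n) ∧ (∀ k, Good n k → k ≤ kstar n) ∧
      n / 3 ≤ kstar n ∧
      Nat.sqrt n < 6 * (n - 2 * kstar n) ∧
      ∀ q : ℕ, IsPrimePow q → q ^ 2 + q + 1 ≤ n →
        q ^ 2 + q + 1 ≤ (2 * q + 1) * (n - 2 * kstar n) := by
  refine ⟨upper_eventually, fun n hn => ?_⟩
  refine ⟨good_kstar hn, fun k hk => ?_, third_le hn, sqrt_bound hn,
    fun q hq h => field_bound hq h (good_kstar hn)⟩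
  have hbd : BddAbove {k | Good n k} := ⟨n, fun k hk => by
    have := dict_bound hn hk
    omega⟩
  exact le_csSup hbd hk

end Pool.Agent.Results.MP_5c4cbf_co.LinearGrowth
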